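import Mathlib
import Pool.Agent.H33R4.Final
import Pool.Agent.H33R4.RANKI

set_option autoImplicit false

namespace Pool.Agent.Results.MP_5f2860_nt.EverySignature

open Polynomial NumberField Filter Topology
open Pool.Agent.H637R2.Leo (Leopoldt)
open Pool.Agent.H33R4 (spec fam)

/-- Let `r₁ + r₂ ≥ 1`, `a_1, …, a_{r₁}` distinct integers, `(b_k, c_k)` (`k ≤ r₂`) distinct pairs of
integers with `c_k > 0`, and `f_t = ∏ (Y - a_i t) ∏ ((Y - b_k t)² + c_k t²) - 1`. For every prime `p`
and all but finitely many `t ∈ ℤ` the polynomial `f_t` is irreducible, `K_t = ℚ[Y]/(f_t)` has `r₁`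
real and `r₂` complex places, and Leopoldt's conjecture holds for `K_t` and `p`. -/
theorem result :
    ∀ (p : ℕ) [Fact p.Prime] (r₁ r₂ : ℕ), 1 ≤ r₁ + r₂ → ∀ (a : Fin r₁ → ℤ) (b c : Fin r₂ → ℤ),
      Function.Injective a → Function.Injective (fun k => (b k, c k)) → (∀ k, 0 < c k) →
      ∃ S : Finset ℤ, ∀ t ∉ S, Irreducible (spec t (fam a b c)) ∧
        ∀ (K : Type) [Field K] [NumberField K] (θ : K), aeval θ (spec t (fam a b c)) = 0 →
          IntermediateField.adjoin ℚ {θ} = ⊤ →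
          InfinitePlace.nrRealPlaces K = r₁ ∧ InfinitePlace.nrComplexPlaces K = r₂ ∧
            Leopoldt K p :=
  fun p _ r₁ r₂ h a b c ha hbc hc => Pool.Agent.H33R4.explicit p r₁ r₂ h a b c ha hbc hc

end Pool.Agent.Results.MP_5f2860_nt.EverySignature
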