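import Mathlib
import Pool.Agent.H637R2.Leo.Final

set_option autoImplicit false

namespace Pool.Agent.Results.MP_5f2860_nt.ExplicitUnits

open NumberField Pool.Agent.H637R2.Leo

/-- Let `p` be a prime, `n ≥ 1`, `p^κ > n`, and let `a_1, …, a_n` be distinct integers which are
all congruent modulo `p^κ`. If `K = ℚ(θ)` with `(θ - a_1) ⋯ (θ - a_n) = 1`, then `K` is a totally
real field of degree `n` and Leopoldt's conjecture holds for `K` and `p`. -/
theorem result (p : ℕ) [Fact p.Prime] (n κ : ℕ) (hn : 1 ≤ n) (hκ : n < p ^ κ)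
    (a : Fin n → ℤ) (ha : Function.Injective a) (hcong : ∀ i j, (p : ℤ) ^ κ ∣ a i - a j)
    (K : Type) [Field K] [NumberField K] (θ : K) (hθ : ∏ i, (θ - (a i : K)) = 1)
    (hgen : IntermediateField.adjoin ℚ {θ} = ⊤) :
    Module.finrank ℚ K = n ∧ IsTotallyReal K ∧ Leopoldt K p :=
  explicit_family p n κ hn hκ a ha hcong K θ hθ hgen

end Pool.Agent.Results.MP_5f2860_nt.ExplicitUnits
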