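import Mathlib
import Pool.Agent.H637R2.Leo.Final

set_option autoImplicit false

namespace Pool.Agent.Results.MP_5f2860_nt.InfinitelyMany

open NumberField Pool.Agent.H637R2.Leo

/-- For every `n ≥ 2`, every finite set `S` of primes and every finite list `L` of number fields
there is a totally real field `K` of degree `n`, isomorphic to no field of the list and, if `n ≥ 3`,
not Galois over `ℚ`, such that Leopoldt's conjecture holds for `K` and every `p ∈ S`. -/
theorem result (n : ℕ) (hn : 2 ≤ n) (S : Finset ℕ) (hS : ∀ p ∈ S, p.Prime)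
    (ι : Type) [Fintype ι] (L : ι → Type) [∀ i, Field (L i)] [∀ i, NumberField (L i)] :
    ∃ (K : Type) (_ : Field K) (_ : NumberField K), Module.finrank ℚ K = n ∧ IsTotallyReal K ∧
      (3 ≤ n → ¬ IsGalois ℚ K) ∧ (∀ i, IsEmpty (K ≃+* L i)) ∧
      ∀ p ∈ S, ∀ [Fact p.Prime], Leopoldt K p :=
  exists_family n hn S hS ι L

end Pool.Agent.Results.MP_5f2860_nt.InfinitelyMany
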