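import Mathlib
import Pool.Agent.H33R4.Final
import Pool.Agent.H33R4.RANKI

set_option autoImplicit false

namespace Pool.Agent.Results.MP_5f2860_nt.ZpSpecialisation

open Polynomial NumberField Filter Topology
open Pool.Agent.H637R2.Leo (Leopoldt)
open Pool.Agent.H33R4 (PIndep spec)

/-- Let `f ∈ ℤ[T][Y]` be monic in `Y` and separable over `ℚ(T)`, and let `u_1, …, u_r` be units of
`A = ℤ[T][Y]/(f)` which are multiplicatively independent modulo constants: if `∏ u_i ^ c_i` is
integral over `ℤ` then `c = 0`. For every prime `p` and all but finitely many `t ∈ ℤ`: if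
`K = ℚ(θ)` is a number field of degree `deg f` and `φ : A → 𝓞 K` is the specialisation
`T ↦ t`, `Y ↦ θ` (so `f(t, Y)` is irreducible), then the units `φ(u_i)` are independent over `ℤ_p`
in the product of the completions of `K` above `p`; so if `r` is the unit rank of `K` then
Leopoldt's conjecture holds for `K` and `p`. -/
theorem result :
    ∀ (p : ℕ) [Fact p.Prime] (f : ℤ[X][X]), f.Monic →
      (f.map (algebraMap ℤ[X] (FractionRing ℤ[X]))).Separable →
      ∀ (r : ℕ) (u : Fin r → (AdjoinRoot f)ˣ),
      (∀ c : Fin r → ℤ,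
        IsIntegral ℤ ((∏ i, u i ^ c i : (AdjoinRoot f)ˣ) : AdjoinRoot f) → c = 0) →
      ∃ S : Finset ℤ, ∀ t ∉ S, ∀ (K : Type) [Field K] [NumberField K] (φ : AdjoinRoot f →+* 𝓞 K),
        φ (AdjoinRoot.of f X) = t → Module.finrank ℚ K = f.natDegree →
        IntermediateField.adjoin ℚ {((φ (AdjoinRoot.root f) : 𝓞 K) : K)} = ⊤ →
        PIndep K p (fun i => Units.map (φ : AdjoinRoot f →* 𝓞 K) (u i)) ∧
          (Units.rank K = r → Leopoldt K p) :=
  fun p _ f hf hsep r u hind =>
    Pool.Agent.H33R4.specialization_of Pool.Agent.H33R4.rankI_proof p f hf hsep r u hind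

end Pool.Agent.Results.MP_5f2860_nt.ZpSpecialisation
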